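import Pool.Agent.Q7.LS.Stm
import Pool.Agent.TeamU.GalAct

/-!
# Project LS (helper7), job NSP (helper252): elements of norm `1` at a prime which does not split completely
-/

set_option autoImplicit false

namespace Pool.Agent.Q252.LS

open NumberField IsDedekindDomain Filter Topology Finset
open Pool.Agent.Q283.LQ (Sm Box Nest nS)
open Pool.Agent.Q7.LK
open Pool.Agent.Q7.LS
open Pool.Agent.TeamU

open Polynomial IntermediateField in
theorem isGalois_kum {p : ℕ} [Fact p.Prime] {F L : Type} [Field F] [NumberField F] [Field L] [NumberField L]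
    [Algebra F L] {ζ d : F}
    (hζ : IsPrimitiveRoot ζ p) (hK : Kum p F L d) (hd : ¬ IsPow p d) : IsGalois F L := by
  have hpp : p.Prime := Fact.out
  obtain ⟨ρ, hρ⟩ := hK.root
  have hirr : Irreducible (X ^ p - C d : F[X]) := by
    rw [X_pow_sub_C_irreducible_iff_of_prime hpp]
    intro b hb
    exact hd ⟨b, hb.symm⟩
  have hmin : X ^ p - C d = minpoly F ρ := by
    refine minpoly.eq_of_irreducible_of_monic hirr ?_ (monic_X_pow_sub_C d hpp.ne_zero)
    rw [map_sub, map_pow, aeval_X, aeval_C, hρ, sub_self]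
  have htop : F⟮ρ⟯ = ⊤ := by
    rw [Field.primitive_element_iff_minpoly_natDegree_eq, ← hmin, natDegree_X_pow_sub_C, hK.deg]
  have hne : (primitiveRoots (Module.finrank F L) F).Nonempty := by
    rw [hK.deg]
    exact ⟨ζ, (mem_primitiveRoots hpp.pos).2 hζ⟩
  have h1 := (isCyclic_tfae F L hne).out 2 0
  exact (h1.1 ⟨ρ, ⟨d, by rw [hK.deg, hρ]⟩, htop⟩).1

section

variable {F L : Type} [Field F] [NumberField F] [Field L] [NumberField L] [Algebra F L]

theorem over_of_ab {v : HeightOneSpectrum (𝓞 F)} {P : HeightOneSpectrum (𝓞 L)} (h : Ab v P) : Over P v := by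
  have h1 : v.asIdeal ≤ P.asIdeal.comap (algebraMap (𝓞 F) (𝓞 L)) := Ideal.map_le_iff_le_comap.1 h
  have h2 : P.asIdeal.comap (algebraMap (𝓞 F) (𝓞 L)) ≠ ⊤ := Ideal.comap_ne_top _ P.isPrime.ne_top
  exact (v.isMaximal.eq_of_le h2 h1).symm

/-- the powers of an ideal in the Galois orbit of a prime with trivial decomposition group -/
theorem approx [IsGalois F L] (P : HeightOneSpectrum (𝓞 L)) (hP : ∀ σ : L ≃ₐ[F] L, σ ≠ 1 → act σ P ≠ P)
    (N : ℕ) (ρ : 𝓞 L) : ∃ y : F, P.valuation L (algebraMap F L y - (ρ : L)) ≤ WithZero.exp (-(N : ℤ)) := by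
  classical
  have hfd : FiniteDimensional F L := Module.Finite.of_restrictScalars_finite ℚ F L
  have hcop : IsCoprime (P.asIdeal ^ N) (∏ σ ∈ (univ : Finset (L ≃ₐ[F] L)).erase 1, (act σ P).asIdeal ^ N) := by
    refine IsCoprime.prod_right fun σ hσ => ?_
    have h1 : act σ P ≠ P := hP σ (Finset.ne_of_mem_erase hσ)
    refine IsCoprime.pow ?_
    rw [Ideal.isCoprime_iff_sup_eq]
    refine Ideal.IsMaximal.coprime_of_ne P.isMaximal (act σ P).isMaximal ?_
    intro h
    exact h1 (HeightOneSpectrum.ext h.symm)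
  obtain ⟨a, ha, b, hb, hab⟩ := Ideal.isCoprime_iff_exists.1 hcop
  refine ⟨Algebra.trace F L ((b : L) * (ρ : L)), ?_⟩
  rw [trace_eq_sum_automorphisms, ← Finset.add_sum_erase univ _ (mem_univ (1 : L ≃ₐ[F] L))]
  have h1 : (1 : L ≃ₐ[F] L) ((b : L) * (ρ : L)) + ∑ σ ∈ (univ : Finset (L ≃ₐ[F] L)).erase 1, σ ((b : L) * (ρ : L)) - (ρ : L) =
      -((a : L) * (ρ : L)) + ∑ σ ∈ (univ : Finset (L ≃ₐ[F] L)).erase 1, σ ((b : L) * (ρ : L)) := by
    have h2 : (a : L) + (b : L) = 1 := by
      have := congrArg (algebraMap (𝓞 L) L) hab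
      rwa [map_add, map_one] at this
    rw [AlgEquiv.one_apply]
    linear_combination (ρ : L) * h2
  rw [h1]
  have hle : ∀ (w : HeightOneSpectrum (𝓞 L)) (z : 𝓞 L), w.valuation L (z : L) ≤ 1 := fun w z =>
    w.valuation_le_one z
  have hmem : ∀ (w : HeightOneSpectrum (𝓞 L)) (z : 𝓞 L), z ∈ w.asIdeal ^ N →
      w.valuation L (z : L) ≤ WithZero.exp (-(N : ℤ)) := by
    intro w z hz
    have h2 : w.valuation L (z : L) = w.intValuation z := w.valuation_of_algebraMap z
    rw [h2]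
    exact (w.intValuation_le_pow_iff_mem z N).2 hz
  refine (Valuation.map_add_le _ ?_ ?_)
  · rw [Valuation.map_neg, map_mul]
    calc P.valuation L (a : L) * P.valuation L (ρ : L) ≤ WithZero.exp (-(N : ℤ)) * 1 :=
          mul_le_mul' (hmem P a ha) (hle P ρ)
      _ = _ := mul_one _
  · refine Valuation.map_sum_le _ fun σ hσ => ?_
    rw [map_mul, map_mul]
    have h3 : ∀ x : L, P.valuation L (σ x) = (act σ⁻¹ P).valuation L x := by
      intro x
      rw [val_act']
      rfl
    rw [h3, h3]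
    have h4 : b ∈ (act σ⁻¹ P).asIdeal ^ N := by
      have h5 : σ⁻¹ ∈ (univ : Finset (L ≃ₐ[F] L)).erase 1 := by
        rw [Finset.mem_erase]
        refine ⟨?_, mem_univ _⟩
        intro h
        exact (Finset.ne_of_mem_erase hσ) (inv_eq_one.1 h)
      exact Ideal.le_of_dvd (Finset.dvd_prod_of_mem (fun τ : L ≃ₐ[F] L => (act τ P).asIdeal ^ N) h5) hb
    calc (act σ⁻¹ P).valuation L (b : L) * (act σ⁻¹ P).valuation L (ρ : L) ≤ WithZero.exp (-(N : ℤ)) * 1 :=
          mul_le_mul' (hmem _ b h4) (hle _ ρ)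
      _ = _ := mul_one _

theorem lpw_of_free [IsGalois F L] {p : ℕ} [Fact p.Prime] {d : F} (hd : d ≠ 0) {ρ : L} (hρ : ρ ^ p = algebraMap F L d)
    {v : HeightOneSpectrum (𝓞 F)} {P : HeightOneSpectrum (𝓞 L)} (hPv : Over P v)
    (hP : ∀ σ : L ≃ₐ[F] L, σ ≠ 1 → act σ P ≠ P) : Lpw p v d := by
  have hp : p.Prime := Fact.out
  intro n
  have hρ0 : ρ ≠ 0 := by
    rintro rfl
    rw [zero_pow hp.ne_zero] at hρ
    exact hd ((map_eq_zero (algebraMap F L)).1 hρ.symm)
  -- an integral multiple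
  obtain ⟨m, r, hm, hr⟩ : ∃ (m : F) (r : 𝓞 L), m ≠ 0 ∧ (r : L) = algebraMap F L m * ρ := by
    obtain ⟨⟨k, hk⟩, hk2⟩ := IsIntegral.exists_multiple_integral_of_isLocalization (nonZeroDivisors ℤ) (Rₘ := ℚ) ρ
      (Algebra.IsIntegral.isIntegral (R := ℚ) ρ)
    refine ⟨(k : F), ⟨(k : L) * ρ, ?_⟩, ?_, ?_⟩
    · have h1 : (⟨k, hk⟩ : nonZeroDivisors ℤ) • ρ = (k : L) * ρ := by
        rw [Submonoid.mk_smul, zsmul_eq_mul]
      rw [h1] at hk2
      exact hk2
    · exact_mod_cast nonZeroDivisors.ne_zero hk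
    · rw [map_intCast]
      rfl
  have hr0 : (r : L) ≠ 0 := by
    rw [hr]
    exact mul_ne_zero ((map_ne_zero _).2 hm) hρ0
  have hv0 : P.valuation L (r : L) ≠ 0 := (Valuation.ne_zero_iff _).2 hr0
  obtain ⟨a, ha⟩ : ∃ a : ℤ, P.valuation L (r : L) = WithZero.exp a := ⟨WithZero.log (P.valuation L (r : L)),
    (WithZero.exp_log hv0).symm⟩
  have ha0 : a ≤ 0 := by
    have h1 : P.valuation L (r : L) ≤ 1 := P.valuation_le_one r
    rw [ha, ← WithZero.exp_zero, WithZero.exp_le_exp] at h1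
    exact h1
  set e := v.asIdeal.ramificationIdx' P.asIdeal with he
  obtain ⟨N, hN1, hN2⟩ : ∃ N : ℕ, -(N : ℤ) < a ∧ -(N : ℤ) - p * a < -(n * e : ℤ) := by
    refine ⟨(p * a.natAbs + n * e + a.natAbs + 1), ?_, ?_⟩
    · push_cast
      have h1 : |a| = -a := abs_of_nonpos ha0
      rw [h1]
      have h2 : (0 : ℤ) ≤ p * (-a) := mul_nonneg (by positivity) (by linarith)
      have h3 : (0 : ℤ) ≤ n * e := by positivity
      linarith
    · push_cast
      have h1 : |a| = -a := abs_of_nonpos ha0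
      rw [h1]
      have h2 : (0 : ℤ) ≤ (p : ℤ) * (-a) := mul_nonneg (by positivity) (by linarith)
      linarith
  obtain ⟨y, hy⟩ := approx P hP N r
  have hyr : P.valuation L (algebraMap F L y) = WithZero.exp a := by
    rw [← ha]
    have h1 : algebraMap F L y = (r : L) + (algebraMap F L y - r) := by ring
    rw [h1]
    refine Valuation.map_add_eq_of_lt_left _ ?_
    rw [ha]
    exact hy.trans_lt (WithZero.exp_lt_exp.2 hN1)
  have hy0 : y ≠ 0 := by
    rintro rfl
    rw [map_zero, map_zero] at hyr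
    exact WithZero.exp_ne_zero hyr.symm
  refine ⟨m / y, ?_⟩
  by_contra hno
  push Not at hno
  have h1 : P.valuation L (algebraMap F L (d * (m / y) ^ p - 1)) ≤ WithZero.exp (-(N : ℤ) - p * a) := by
    have h2 : algebraMap F L (d * (m / y) ^ p - 1) = ((r : L) ^ p - algebraMap F L y ^ p) / algebraMap F L y ^ p := by
      rw [map_sub, map_mul, map_pow, map_div₀, map_one, ← hρ, hr]
      have h3 : algebraMap F L y ≠ 0 := (map_ne_zero _).2 hy0
      rw [eq_div_iff (pow_ne_zero _ h3), div_pow, mul_pow, sub_mul, mul_div_assoc', div_mul_cancel₀ _ (pow_ne_zero _ h3)]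
      ring
    rw [h2, map_div₀, map_pow, hyr]
    have h4 : P.valuation L ((r : L) ^ p - algebraMap F L y ^ p) ≤ WithZero.exp (-(N : ℤ)) := by
      rw [← Commute.mul_geom_sum₂ (Commute.all _ _), map_mul]
      have h5 : P.valuation L ((r : L) - algebraMap F L y) ≤ WithZero.exp (-(N : ℤ)) := by
        rw [Valuation.map_sub_swap]
        exact hy
      have h6 : P.valuation L (∑ i ∈ range p, (r : L) ^ i * algebraMap F L y ^ (p - 1 - i)) ≤ 1 := by
        refine Valuation.map_sum_le _ fun i _ => ?_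
        rw [map_mul, map_pow, map_pow, hyr, ha]
        have h7 : WithZero.exp a ≤ (1 : WithZero (Multiplicative ℤ)) := by
          rw [← WithZero.exp_zero, WithZero.exp_le_exp]
          exact ha0
        exact mul_le_one' (pow_le_one' h7 _) (pow_le_one' h7 _)
      calc _ ≤ WithZero.exp (-(N : ℤ)) * 1 := mul_le_mul' h5 h6
        _ = _ := mul_one _
    rw [div_eq_mul_inv]
    have h8 : ((WithZero.exp a : WithZero (Multiplicative ℤ)) ^ p)⁻¹ = WithZero.exp (-(p * a)) := by
      rw [← WithZero.exp_nsmul, ← WithZero.exp_neg, nsmul_eq_mul]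
    have h9 : -(N : ℤ) - p * a = -(N : ℤ) + -(p * a) := sub_eq_add_neg _ _
    rw [h8, h9, WithZero.exp_add]
    exact mul_le_mul' h4 le_rfl
  rw [val_over hPv] at h1
  have h2 : (WithZero.exp (-(n : ℤ)) : WithZero (Multiplicative ℤ)) ^ e ≤ v.valuation F (d * (m / y) ^ p - 1) ^ e :=
    pow_le_pow_left' hno e
  have h3 := h2.trans h1
  rw [← WithZero.exp_nsmul, WithZero.exp_le_exp, nsmul_eq_mul] at h3
  linarith

end

/-- **JOB NSP** -/
theorem nsp : S_NSP := by
  intro p _ hp2 F L _ _ _ _ _ ζ d hζ hK hd v hv w hw P hPv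
  have hp : p.Prime := Fact.out
  have hG : IsGalois F L := isGalois_kum hζ hK hd
  have hcard : Nat.card (L ≃ₐ[F] L) = p := by rw [IsGalois.card_aut_eq_finrank, hK.deg]
  have hO := over_of_ab hPv
  have hd0 : d ≠ 0 := by
    rintro rfl
    exact hd ⟨0, by rw [zero_pow hp.ne_zero]⟩
  obtain ⟨ρ, hρ⟩ := hK.root
  by_cases hfix : ∃ σ : L ≃ₐ[F] L, σ ≠ 1 ∧ act σ P = P
  · obtain ⟨σ, hσ, hσP⟩ := hfix
    have hpow : ∀ n : ℕ, act (σ ^ n) P = P := by
      intro n
      induction n with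
      | zero => rw [pow_zero, act_one]
      | succ n ih => rw [pow_succ, act_mul, hσP, ih]
    have hall : ∀ g : L ≃ₐ[F] L, P.valuation L (g w) = P.valuation L w := by
      intro g
      obtain ⟨n, hn⟩ := mem_powers_of_prime_card hcard hσ (g' := g)
      have h1 : act g P = P := by
        rw [← hn]
        exact hpow n
      have h2 := val_act g P w
      rwa [h1] at h2
    have h1 := Algebra.norm_eq_prod_automorphisms F w
    have h2 := congrArg (P.valuation L) h1
    rw [hw, map_one, map_one, map_prod, Finset.prod_congr rfl fun g _ => hall g, Finset.prod_const, Finset.card_univ,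
      ← Nat.card_eq_fintype_card, hcard] at h2
    exact (pow_eq_one_iff_of_nonneg zero_le hp.ne_zero).1 h2.symm
  · push Not at hfix
    exact absurd (lpw_of_free hd0 hρ hO hfix) hv

end Pool.Agent.Q252.LS
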