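import Pool.Agent.Q7.LS.Stm
import Pool.Agent.Q265.LK.Bas

/-!
# Project LS (helper7), job LCN (helper252): the local classes `AX`
-/

set_option autoImplicit false

namespace Pool.Agent.Q252.LS

open NumberField IsDedekindDomain Filter Topology Finset
open Pool.Agent.Q283.LQ (Sm Box Nest nS)
open Pool.Agent.Q7.LK
open Pool.Agent.Q7.LS
open Pool.Agent.Q265.LK

/-- **JOB LCN** -/
theorem lcn (hB : S_BAS) (hT : S_ATL) (hN : S_AUN) (hC : S_AUC) (hV : S_LOCV) : S_LCN := by
  classical
  intro p _ hp2 F _ _ ζ hζ y hy T S hTp hTS D0 hD0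
  have hp : p.Prime := Fact.out
  have hL := hT p hp2 F ζ hζ
  have hne : ∀ v a, AX p T S D0 v a → a ≠ 0 := fun v a h => h.ne
  refine ⟨fun v a _ h => h.ne, ?_, ?_, ?_, ?_⟩
  · -- mul
    intro v a b hv ha hb
    have hb0 : b ≠ 0 := lpw_ne hB hb
    refine ⟨mul_ne_zero ha.ne hb0, ?_, ?_, ?_⟩
    · intro hvT
      exact hL.mul v D0 a b (hTp v hvT) hD0 (ha.inT hvT) hb
    · intro hvT hvp hn
      exact (hC p hp2 F v D0 hD0).1 a b (ha.inp hvT hvp hn) hb
    · intro hvT hvp hn
      obtain ⟨h1, h2, h3⟩ := ha.out hvT hvp hn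
      refine ⟨mul_ne_zero h1 hb0, ?_, ?_⟩
      · intro h
        rw [vl_mul hB v h1 hb0, h2 h, lpw_vl hB hb, add_zero]
      · intro h
        obtain ⟨j, hj⟩ := h3 h
        refine ⟨j, ?_⟩
        have h4 := lpw_mul hB hj hb
        have h5 : a * D0 ^ j * b = a * b * D0 ^ j := by ring
        rwa [h5] at h4
  · -- clo
    intro v a hv ha
    refine ⟨mul_ne_zero ha.ne hD0, ?_, ?_, ?_⟩
    · intro hvT
      exact hL.clo v D0 a (hTp v hvT) hD0 (ha.inT hvT)
    · intro hvT hvp hn
      exact (hC p hp2 F v D0 hD0).2.2.1 a (ha.inp hvT hvp hn)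
    · intro hvT hvp hn
      obtain ⟨h1, h2, h3⟩ := ha.out hvT hvp hn
      refine ⟨mul_ne_zero h1 hD0, ?_, ?_⟩
      · intro h
        rw [vl_mul hB v h1 hD0, h2 h, h, add_zero]
      · intro h
        obtain ⟨j, hj⟩ := h3 h
        refine ⟨j + (p - 1), ?_⟩
        have h4 := lpw_mul hB hj (lpw_pow (p := p) hB v hD0)
        have h5 : a * D0 ^ j * D0 ^ p = a * D0 * D0 ^ (j + (p - 1)) := by
          have h6 : D0 ^ p = D0 * D0 ^ (p - 1) := by
            rw [← pow_succ', Nat.sub_add_cancel hp.one_le]
          rw [h6, pow_add]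
          ring
        rwa [h5] at h4
  · -- num
    intro v hv B hBA hBn
    by_cases hvT : v ∈ T
    · have h1 : cX p y T S D0 v = 0 := by
        unfold cX
        rw [if_pos (Or.inl hvT)]
      rw [h1]
      exact hL.num v D0 (hTp v hvT) hD0 B (fun b hb => (hBA b hb).inT hvT) hBn
    · by_cases hvS : v ∈ S ∧ Lpw p v D0
      · have h1 : cX p y T S D0 v = dv p v + 1 := by
          unfold cX
          rw [if_neg (by rintro (h | h); exacts [hvT h, h hv]), if_pos hvS]
        rw [h1]
        have h2 := hV p hp2 F ζ hζ v B (fun b hb => (hBA b hb).ne) hBn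
        have h3 : 2 + dv p v = dv p v + 1 + 1 := by ring
        rwa [h3] at h2
      · have h1 : cX p y T S D0 v = dv p v := by
          unfold cX
          rw [if_neg (by rintro (h | h); exacts [hvT h, h hv]), if_neg hvS]
        rw [h1]
        by_cases hvp : Dp p v
        · exact hN p hp2 F ζ hζ v D0 hD0 B (fun b hb => (hBA b hb).inp hvT hvp hvS) hBn
        · have h2 : dv p v = 0 := by
            unfold dv
            rw [if_neg hvp]
          rw [h2, zero_add, pow_one]
          have hcard : (Finset.univ : Finset (ZMod p)).card = p := by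
            rw [Finset.card_univ, ZMod.card]
          have hAo : ∀ b ∈ B, Ao p v D0 b := fun b hb => (hBA b hb).out hvT hvp hvS
          by_cases hod : vl p v D0 = 0
          · refine (Finset.card_le_card_of_injOn (fun b => sy p ζ v b) (fun _ _ => Finset.mem_univ _)
              ?_).trans hcard.le
            intro b hb b' hb' hbb
            by_contra hne'
            obtain ⟨hb1, h1, -⟩ := hAo b hb
            obtain ⟨hb2, h2', -⟩ := hAo b' hb'
            have h1 := h1 hod
            have h2 := h2' hod
            have h3 : vl p v (b / b') = 0 := by rw [vl_div hB v hb1 hb2, h1, h2, sub_zero]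
            refine hBn b hb b' hb' hne' ((sy_zero_iff hB hvp hζ (div_ne_zero hb1 hb2) h3).1 ?_)
            have h4 : sy p ζ v b = sy p ζ v b' := hbb
            rw [sy_div hB hvp hζ hb1 hb2 h1 h2, h4, sub_self]
          · have hex : ∀ b : F, ∃ j : ℕ, b ∈ B → Lpw p v (b * D0 ^ j) := by
              intro b
              by_cases hb : b ∈ B
              · obtain ⟨j, hj⟩ := (hAo b hb).2.2 hod
                exact ⟨j, fun _ => hj⟩
              · exact ⟨0, fun h => absurd h hb⟩
            choose j hj using hex
            refine (Finset.card_le_card_of_injOn (fun b => (j b : ZMod p)) (fun _ _ => Finset.mem_univ _)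
              ?_).trans hcard.le
            intro b hb b' hb' hbb
            by_contra hne'
            have hb1 := (hAo b hb).1
            have hb2 := (hAo b' hb').1
            refine hBn b hb b' hb' hne' ?_
            have h4 : ((j b' : ℕ) : ZMod p) = (j b : ℕ) := hbb.symm
            have h5 := lpw_mul hB (lpw_div hB (hj b hb) (hj b' hb')) (lpw_pow_div hB v hD0 h4)
            have h6 : b * D0 ^ j b / (b' * D0 ^ j b') * (D0 ^ j b' / D0 ^ j b) = b / b' := by
              have h7 := pow_ne_zero (j b) hD0
              have h8 := pow_ne_zero (j b') hD0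
              field_simp
            rwa [h6] at h5
  · -- zero
    intro v hv
    unfold cX
    rw [if_pos (Or.inr hv)]

end Pool.Agent.Q252.LS
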